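import Pool.Agent.W458.MF.NStm

/-!
# Project MF, part DENS: proportions of the patterns
-/

set_option autoImplicit false

open Polynomial

namespace Pool.Agent.W806.MF

open Pool.Agent.W521.Frob Pool.Agent.W458.MF

theorem sim_nonempty (g l : ℕ) (γ : ZMod l) : (similitudes g l γ).Nonempty := by
  refine ⟨Matrix.fromBlocks 1 0 0 (γ • (1 : Matrix (Fin g) (Fin g) (ZMod l))), ?_⟩
  unfold similitudes
  show Matrix.fromBlocks 1 0 0 (γ • (1 : Matrix (Fin g) (Fin g) (ZMod l))) *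
    Matrix.J (Fin g) (ZMod l) *
    (Matrix.fromBlocks 1 0 0 (γ • (1 : Matrix (Fin g) (Fin g) (ZMod l)))).transpose =
    γ • Matrix.J (Fin g) (ZMod l)
  unfold Matrix.J
  rw [Matrix.fromBlocks_transpose, Matrix.fromBlocks_multiply, Matrix.fromBlocks_multiply,
    Matrix.fromBlocks_smul]
  simp

theorem prop_ge (h1 : St_ORB) (h2 : St_WINJ) {g l q : ℕ} (hg : 0 < g) (hl : l.Prime)
    (hq : ¬ l ∣ q) {c : ℝ} (hc : 0 < c) {E : Set (ZMod l)[X]}
    (hE : ∀ f ∈ E, f.Monic ∧ f.natDegree = g ∧ Squarefree f)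
    (hcard : c * (l : ℝ) ^ g ≤ (E.ncard : ℝ)) : c / 2 ^ g ≤ proportion g l q E := by
  classical
  haveI : Fact l.Prime := ⟨hl⟩
  haveI : NeZero l := ⟨hl.ne_zero⟩
  have hlp : (0 : ℝ) < l := by exact_mod_cast hl.pos
  have hEfin : E.Finite := by
    apply Set.finite_of_ncard_pos
    have : (0 : ℝ) < (E.ncard : ℝ) := lt_of_lt_of_le (by positivity) hcard
    exact_mod_cast this
  -- lifts
  have hlift : ∀ f ∈ E, ∃ h : ℤ[X], h.map (Int.castRingHom (ZMod l)) = f ∧ h.natDegree = g ∧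
      h.Monic := by
    intro f hf
    obtain ⟨hm, hd, _⟩ := hE f hf
    have hmem : f ∈ lifts (Int.castRingHom (ZMod l)) := by
      rw [mem_lifts]
      exact map_surjective _ (ZMod.ringHom_surjective _) f
    obtain ⟨h, ha, hb, hc⟩ := lifts_and_natDegree_eq_and_monic hmem hm
    exact ⟨h, ha, by rw [hb, hd], hc⟩
  choose! H hH1 hH2 hH3 using hlift
  set Sm := similitudes g l (q : ZMod l) with hSm
  have hfin : ∀ s : Set (Matrix (Fin g ⊕ Fin g) (Fin g ⊕ Fin g) (ZMod l)), s.Finite :=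
    fun s => Set.toFinite s
  set P : Set (Matrix (Fin g ⊕ Fin g) (Fin g ⊕ Fin g) (ZMod l)) :=
    {A | A ∈ Sm ∧ ∃ h : ℤ[X], h.Monic ∧ h.natDegree = g ∧
      h.map (Int.castRingHom (ZMod l)) ∈ E ∧
        A.charpoly = (weil q h).map (Int.castRingHom (ZMod l))} with hP
  set Af : (ZMod l)[X] → Set (Matrix (Fin g ⊕ Fin g) (Fin g ⊕ Fin g) (ZMod l)) := fun f =>
    {A | A ∈ Sm ∧ A.charpoly = (weil q (H f)).map (Int.castRingHom (ZMod l))} with hAf
  have hA1 : ∀ f ∈ E, Sm.ncard ≤ (2 * l) ^ g * (Af f).ncard := by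
    intro f hf
    apply h1 g l q hg hl hq (H f) (hH3 f hf) (hH2 f hf)
    rw [hH1 f hf]
    exact (hE f hf).2.2
  have hA2 : ∑ f ∈ hEfin.toFinset, (Af f).ncard ≤ P.ncard := by
    have e : ∀ f, (Af f).ncard = (hfin (Af f)).toFinset.card := fun f =>
      Set.ncard_eq_toFinset_card _ _
    rw [Set.ncard_eq_toFinset_card P (hfin P), Finset.sum_congr rfl (fun f _ => e f),
      ← Finset.card_biUnion]
    · refine Finset.card_le_card ?_
      intro A hA
      rw [Finset.mem_biUnion] at hA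
      obtain ⟨f, hf, hA⟩ := hA
      rw [Set.Finite.mem_toFinset] at hf hA ⊢
      exact ⟨hA.1, H f, hH3 f hf, hH2 f hf, by rw [hH1 f hf]; exact hf, hA.2⟩
    · intro f hf f' hf' hne
      simp only [Function.onFun, Finset.disjoint_left, Set.Finite.mem_toFinset]
      intro A hA hA'
      have hfE : f ∈ E := hEfin.mem_toFinset.1 hf
      have hfE' : f' ∈ E := hEfin.mem_toFinset.1 hf'
      apply hne
      have h3 := h2 l q (H f) (H f') (hH3 f hfE) (hH3 f' hfE')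
        (by rw [hH2 f hfE, hH2 f' hfE']) (by rw [← hA.2, ← hA'.2])
      rwa [hH1 f hfE, hH1 f' hfE'] at h3
  have hA3 : E.ncard * Sm.ncard ≤ (2 * l) ^ g * P.ncard := by
    calc E.ncard * Sm.ncard = ∑ _f ∈ hEfin.toFinset, Sm.ncard := by
          rw [Finset.sum_const, smul_eq_mul, ← Set.ncard_eq_toFinset_card E hEfin]
      _ ≤ ∑ f ∈ hEfin.toFinset, (2 * l) ^ g * (Af f).ncard :=
          Finset.sum_le_sum fun f hf => hA1 f (hEfin.mem_toFinset.1 hf)
      _ = (2 * l) ^ g * ∑ f ∈ hEfin.toFinset, (Af f).ncard := by rw [Finset.mul_sum]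
      _ ≤ (2 * l) ^ g * P.ncard := Nat.mul_le_mul_left _ hA2
  have hSp : 0 < Sm.ncard := (Set.ncard_pos (hfin Sm)).2 (sim_nonempty g l q)
  have hSpR : (0 : ℝ) < (Sm.ncard : ℝ) := by exact_mod_cast hSp
  have hA4 : (E.ncard : ℝ) * (Sm.ncard : ℝ) ≤ (2 * (l : ℝ)) ^ g * (P.ncard : ℝ) := by
    exact_mod_cast hA3
  unfold proportion
  change c / 2 ^ g ≤ (P.ncard : ℝ) / (Sm.ncard : ℝ)
  rw [div_le_div_iff₀ (by positivity) hSpR]
  have h5 : c * (l : ℝ) ^ g * (Sm.ncard : ℝ) ≤ (2 * (l : ℝ)) ^ g * (P.ncard : ℝ) :=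
    le_trans (by gcongr) hA4
  rw [mul_pow] at h5
  have h6 : (l : ℝ) ^ g * (c * (Sm.ncard : ℝ)) ≤ (l : ℝ) ^ g * ((P.ncard : ℝ) * 2 ^ g) := by
    linarith
  exact le_of_mul_le_mul_left h6 (by positivity)

theorem prod_good {l g : ℕ} [Fact l.Prime] (T : Finset (ZMod l)) (hT : T.card = g) :
    (∏ t ∈ T, (X - C t) : (ZMod l)[X]).Monic ∧ (∏ t ∈ T, (X - C t) : (ZMod l)[X]).natDegree = g ∧
      Squarefree (∏ t ∈ T, (X - C t) : (ZMod l)[X]) := by
  refine ⟨monic_prod_of_monic _ _ fun t _ => monic_X_sub_C t, ?_, ?_⟩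
  · rw [natDegree_prod_of_monic _ _ fun t _ => monic_X_sub_C t]
    simp [hT]
  · apply Separable.squarefree
    rw [separable_prod_X_sub_C_iff']
    intro x _ y _ h
    exact h

theorem dens (h1 : St_ORB) (h2 : St_WINJ) (h3 : St_CNT) : St_DENS := by
  intro g N hg hN
  obtain ⟨c, hc, l₁, h⟩ := h3 g N hg hN
  refine ⟨c / 2 ^ g, by positivity, l₁, fun l hl hll q hq => ?_⟩
  haveI : Fact l.Prime := ⟨hl⟩
  obtain ⟨ha, hb, hd⟩ := h l hl hll q hq
  refine ⟨prop_ge h1 h2 hg hl hq hc ?_ ha, prop_ge h1 h2 hg hl hq hc ?_ hb,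
    prop_ge h1 h2 hg hl hq hc ?_ hd⟩
  · rintro f ⟨T, t₀, hT, _, rfl, _⟩
    exact prod_good T hT
  · rintro f ⟨T, hT, rfl, _⟩
    exact prod_good T hT
  · rintro f ⟨hm, hdeg, hirr⟩
    exact ⟨hm, hdeg, hirr.squarefree⟩

end Pool.Agent.W806.MF
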